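import Pool.Agent.H93.EN.Targets4

/-!
# Row SB: the modes `h_k` are bounded by `C / δ`
-/

namespace Pool.Agent.H96.EN

open MeasureTheory Set Metric Filter Topology Pool.Agent.H93.EN
open Pool.Agent.H93.BL hiding T_B1 T_B2 T_B3 T_SB T_SC

/-- **SB.** -/
theorem sb (h1 : T_U0) (h2 : T_B2) : Pool.Agent.H93.EN.T_SB := by
  obtain ⟨C, hC, hU⟩ := h1
  refine ⟨C, hC, ?_⟩
  intro ι D δ hδ k x
  obtain ⟨-, -, hm, hb⟩ := hU (D.X x) (D.Xb x) δ hδ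
  have hm' : Measurable (Hl (D.X x) δ x) := hm.of_uncurry_left
  have hbd : ∀ w, ‖w‖ = 1 → |Hl (D.X x) δ x w| ≤ C / δ := by
    intro w hw
    obtain ⟨-, -, h4, h5, -, -⟩ := hb x w
    exact (h5 hw).trans h4
  obtain ⟨-, -, h6, h7⟩ := h2 (Hl (D.X x) δ x) (Hl (D.X x) δ x) (C / δ) hm' hm' hbd hbd
  exact (h7 k).1.trans h6

end Pool.Agent.H96.EN
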